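import Mathlib

/-!
# Periodic solutions of `D'' + 2 i w D' = a D + b conj D`

A nonzero periodic solution with period `P` forces
`((2 pi k / P)^2 + a)^2 - 4 w^2 (2 pi k / P)^2 = |b|^2` for some integer `k`.
-/

set_option autoImplicit false

namespace Pool.Agent.U785.LG

open Complex MeasureTheory Set intervalIntegral ComplexConjugate

/-- The coefficient `∫ exp(-i l t) g(t) dt` over one period. -/
noncomputable def co (P : ℝ) (g : ℝ → ℂ) (l : ℝ) : ℂ :=
  ∫ t in (0 : ℝ)..P, exp (-(l * I) * t) * g t

theorem eq_zero_of_co {P : ℝ} (hP : 0 < P) {D : ℝ → ℂ} (hc : Continuous D)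
    (hper : ∀ t, D (t + P) = D t) (h : ∀ k : ℤ, co P D (2 * Real.pi * k / P) = 0) (t : ℝ) :
    D t = 0 := by
  have : Fact (0 < P) := ⟨hP⟩
  have hD0 : D 0 = D (0 + P) := (hper 0).symm
  have hcont : Continuous (AddCircle.liftIco P 0 D) :=
    AddCircle.liftIco_continuous hD0 hc.continuousOn
  let f : C(AddCircle P, ℂ) := ⟨AddCircle.liftIco P 0 D, hcont⟩
  have hz : ∀ k : ℤ, fourierCoeff f k = 0 := by
    intro k
    have h1 : fourierCoeff (AddCircle.liftIco P 0 D) k =
        fourierCoeffOn (lt_add_of_pos_right 0 hP) D k := fourierCoeff_liftIco_eq (a := 0) D k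
    change fourierCoeff (AddCircle.liftIco P 0 D) k = 0
    rw [h1, fourierCoeffOn_eq_integral]
    have h2 := h k
    unfold co at h2
    have h3 : (∫ x in (0 : ℝ)..(0 + P), fourier (-k) (x : AddCircle (0 + P - 0)) • D x) =
        ∫ t in (0 : ℝ)..P, exp (-(((2 * Real.pi * k / P : ℝ) : ℂ) * I) * t) * D t := by
      rw [zero_add]
      refine intervalIntegral.integral_congr fun x _ => ?_
      simp only [fourier_coe_apply, smul_eq_mul]
      congr 2
      push_cast
      rw [sub_zero]
      ring
    rw [h3, h2, smul_zero]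
  have hs : HasSum (fun i => fourierCoeff f i • fourier i) f :=
    hasSum_fourier_series_of_summable (f := f) (by
      have : fourierCoeff f = fun _ => 0 := funext hz
      rw [this]; exact summable_zero)
  have hs0 : HasSum (fun i => fourierCoeff f i • (fourier i : C(AddCircle P, ℂ))) 0 := by
    have : (fun i => fourierCoeff f i • (fourier i : C(AddCircle P, ℂ))) = fun _ => 0 := by
      funext i
      rw [hz i, zero_smul]
    rw [this]
    exact hasSum_zero
  have hf : f = 0 := hs.unique hs0
  have hico : ∀ x ∈ Ico (0 : ℝ) P, D x = 0 := by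
    intro x hx
    have h1 : AddCircle.liftIco P 0 D (x : AddCircle P) = D x :=
      AddCircle.liftIco_coe_apply (by rw [zero_add]; exact hx)
    have h2 : f (x : AddCircle P) = 0 := by rw [hf]; rfl
    rw [← h1]
    exact h2
  have hp : Function.Periodic D P := hper
  obtain ⟨x, hx, hxt⟩ := hp.exists_mem_Ico₀ hP t
  rw [hxt]
  exact hico x hx

theorem co_deriv {P : ℝ} {g g' : ℝ → ℂ} (hg : ∀ t, HasDerivAt g (g' t) t)
    (hc : Continuous g') (hper : g P = g 0) (l : ℝ) (hl : exp (-(l * I) * P) = 1) :
    co P g' l = l * I * co P g l := by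
  unfold co
  have hu : ∀ t : ℝ, HasDerivAt (fun t : ℝ => exp (-(l * I) * t))
      (-(l * I) * exp (-(l * I) * t)) t := by
    intro t
    have h1 : HasDerivAt (fun t : ℝ => (-(l * I) * (t : ℂ))) (-(l * I) * 1) t :=
      (Complex.ofRealCLM.hasDerivAt (x := t)).const_mul _
    refine h1.cexp.congr_deriv ?_
    ring
  have hgc : Continuous g := continuous_iff_continuousAt.2 fun t => (hg t).continuousAt
  have h := intervalIntegral.integral_mul_deriv_eq_deriv_mul (a := 0) (b := P)
    (u := fun t : ℝ => exp (-(l * I) * t)) (v := g)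
    (u' := fun t : ℝ => -(l * I) * exp (-(l * I) * t)) (v' := g')
    (fun t _ => hu t) (fun t _ => hg t)
    (by apply Continuous.intervalIntegrable; fun_prop)
    (hc.intervalIntegrable _ _)
  rw [h, hl, hper]
  have e : (∫ x in (0 : ℝ)..P, -(l * I) * exp (-(l * I) * x) * g x) =
      -(l * I) * ∫ x in (0 : ℝ)..P, exp (-(l * I) * x) * g x := by
    rw [← intervalIntegral.integral_const_mul]
    refine intervalIntegral.integral_congr fun x _ => ?_
    try simp only
    ring
  rw [e]
  simp

theorem co_conj {P : ℝ} (hP : 0 < P) {g : ℝ → ℂ} (l : ℝ) :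
    co P (fun t => conj (g t)) l = conj (co P g (-l)) := by
  unfold co
  rw [intervalIntegral.integral_of_le hP.le, intervalIntegral.integral_of_le hP.le, ← integral_conj]
  refine integral_congr_ae (Filter.Eventually.of_forall fun t => ?_)
  simp only
  rw [map_mul, ← Complex.exp_conj]
  congr 2
  simp

theorem co_add {P : ℝ} {f g : ℝ → ℂ} (hf : Continuous f) (hg : Continuous g) (l : ℝ) :
    co P (fun t => f t + g t) l = co P f l + co P g l := by
  unfold co
  rw [← intervalIntegral.integral_add]
  · refine intervalIntegral.integral_congr fun x _ => ?_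
    simp only
    ring
  · apply Continuous.intervalIntegrable; fun_prop
  · apply Continuous.intervalIntegrable; fun_prop

theorem co_mul {P : ℝ} {g : ℝ → ℂ} (c : ℂ) (l : ℝ) :
    co P (fun t => c * g t) l = c * co P g l := by
  unfold co
  rw [← intervalIntegral.integral_const_mul]
  refine intervalIntegral.integral_congr fun x _ => ?_
  simp only
  ring

theorem mode {P w a : ℝ} {b : ℂ} (hP : 0 < P) {D D1 D2 : ℝ → ℂ}
    (h1 : ∀ t, HasDerivAt D (D1 t) t) (h2 : ∀ t, HasDerivAt D1 (D2 t) t)
    (hper : ∀ t, D (t + P) = D t)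
    (hode : ∀ t, D2 t + 2 * I * w * D1 t = a * D t + b * conj (D t))
    (hne : ∃ t, D t ≠ 0) :
    ∃ k : ℤ, ((2 * Real.pi * k / P) ^ 2 + a) ^ 2 - 4 * w ^ 2 * (2 * Real.pi * k / P) ^ 2 =
      ‖b‖ ^ 2 := by
  have hDc : Continuous D := continuous_iff_continuousAt.2 fun t => (h1 t).continuousAt
  have hD1c : Continuous D1 := continuous_iff_continuousAt.2 fun t => (h2 t).continuousAt
  have hconj : Continuous (fun t => conj (D t)) := Complex.continuous_conj.comp hDc
  have hD2 : D2 = fun t => (a * D t + b * conj (D t)) - 2 * I * w * D1 t := by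
    funext t
    rw [← hode t]; ring
  have hD2c : Continuous D2 := by
    rw [hD2]
    exact ((continuous_const.mul hDc).add (continuous_const.mul hconj)).sub
      (continuous_const.mul hD1c)
  have hper1 : ∀ t, D1 (t + P) = D1 t := by
    intro t
    have e1 : HasDerivAt (fun s => D (s + P)) (D1 (t + P)) t := (h1 (t + P)).comp_add_const t P
    have e2 : (fun s => D (s + P)) = D := funext hper
    rw [e2] at e1
    exact e1.unique (h1 t)
  have hex : ∃ k : ℤ, co P D (2 * Real.pi * k / P) ≠ 0 := by
    by_contra hcon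
    push Not at hcon
    obtain ⟨t, ht⟩ := hne
    exact ht (eq_zero_of_co hP hDc hper hcon t)
  obtain ⟨k, hk⟩ := hex
  refine ⟨k, ?_⟩
  set l : ℝ := 2 * Real.pi * k / P with hl
  have hPc : (P : ℂ) ≠ 0 := by exact_mod_cast hP.ne'
  have hexp : ∀ j : ℤ, exp (-(((2 * Real.pi * j / P : ℝ) : ℂ) * I) * P) = 1 := by
    intro j
    rw [Complex.exp_eq_one_iff]
    refine ⟨-j, ?_⟩
    push_cast
    field_simp
  have hexpl : exp (-((l : ℂ) * I) * P) = 1 := hexp k
  have hexpl' : exp (-(((-l : ℝ) : ℂ) * I) * P) = 1 := by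
    have := hexp (-k)
    have e : (2 * Real.pi * ((-k : ℤ) : ℝ) / P : ℝ) = -l := by
      rw [hl]; push_cast; ring
    rw [e] at this
    exact this
  have key : ∀ q : ℝ, exp (-((q : ℂ) * I) * P) = 1 →
      (-(q : ℂ) ^ 2 - 2 * w * q - a) * co P D q = b * conj (co P D (-q)) := by
    intro q hq
    have e1 : co P D1 q = q * I * co P D q :=
      co_deriv h1 hD1c (by have := hper 0; rwa [zero_add] at this) q hq
    have e2 : co P D2 q = q * I * co P D1 q :=
      co_deriv h2 hD2c (by have := hper1 0; rwa [zero_add] at this) q hq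
    have e3 : co P (fun t => D2 t + 2 * I * w * D1 t) q =
        co P D2 q + 2 * I * w * co P D1 q := by
      have q1 := co_add (P := P) hD2c (g := fun t => 2 * I * w * D1 t) (continuous_const.mul hD1c) q
      have q2 := co_mul (P := P) (g := D1) (2 * I * w) q
      rw [q1, q2]
    have e4 : co P (fun t => a * D t + b * conj (D t)) q =
        a * co P D q + b * conj (co P D (-q)) := by
      have q1 := co_add (P := P) (f := fun t => (a : ℂ) * D t) (g := fun t => b * conj (D t))
        (continuous_const.mul hDc) (continuous_const.mul hconj) q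
      have q2 := co_mul (P := P) (g := D) (a : ℂ) q
      have q3 := co_mul (P := P) (g := fun t => conj (D t)) b q
      rw [q1, q2, q3, co_conj hP]
    have e5 : (fun t => D2 t + 2 * I * w * D1 t) = fun t => a * D t + b * conj (D t) :=
      funext hode
    rw [e5, e4, e2, e1] at e3
    have hI : I * I = -1 := Complex.I_mul_I
    linear_combination -e3 - ((q : ℂ) ^ 2 + 2 * w * q) * co P D q * hI
  have k1 := key l hexpl
  have k2 := key (-l) hexpl'
  rw [neg_neg] at k2
  have k3 := congrArg conj k2
  simp only [map_mul, map_sub, map_neg, map_pow, Complex.conj_ofReal, map_ofNat,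
    Complex.conj_conj] at k3
  have hmul : ((((l ^ 2 + a) ^ 2 - 4 * w ^ 2 * l ^ 2 : ℝ) : ℂ) - b * conj b) * co P D l = 0 := by
    push_cast at k3 ⊢
    linear_combination (-(l : ℂ) ^ 2 + 2 * w * l - a) * k1 + b * k3
  rcases mul_eq_zero.1 hmul with h | h
  · rw [Complex.mul_conj, Complex.normSq_eq_norm_sq, sub_eq_zero] at h
    exact_mod_cast h
  · exact absurd h hk

end Pool.Agent.U785.LG
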