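import Pool.Agent.U785.LG.A
import Pool.Agent.W821.TB.Rigid

/-!
# Linearisation of a family of relative periodic solutions at the equilateral relative equilibrium
-/

set_option autoImplicit false

namespace Pool.Agent.U785.LG

open Complex ComplexConjugate Pool.Agent.W821.TB

/-- The field `w / |w|^3`. -/
noncomputable def gf (w : ℂ) : ℂ := (((‖w‖ ^ 3)⁻¹ : ℝ) : ℂ) * w

theorem gf_neg (w : ℂ) : gf (-w) = -gf w := by
  unfold gf
  rw [norm_neg]; ring

theorem hasDerivAt_gf {W : ℝ → ℂ} {V : ℂ} {s r : ℝ} (hW : HasDerivAt W V s) (hr : 0 < r)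
    (hWr : ‖W s‖ = r) :
    HasDerivAt (fun u => gf (W u))
      (-(1 / (2 * (r : ℂ) ^ 3)) * (V + 3 * (W s) ^ 2 * conj V / (r : ℂ) ^ 2)) s := by
  have h1 : HasDerivAt (fun u => ‖W u‖ ^ 2) (2 * inner ℝ (W s) V) s := hW.norm_sq
  have hpos : ‖W s‖ ^ 2 ≠ 0 := by rw [hWr]; positivity
  have h2 := h1.sqrt hpos
  have e1 : (fun u => Real.sqrt (‖W u‖ ^ 2)) = fun u => ‖W u‖ := by
    funext u
    exact Real.sqrt_sq (norm_nonneg _)
  rw [e1, Real.sqrt_sq (norm_nonneg _), hWr] at h2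
  have h3 : HasDerivAt (fun u => (‖W u‖ ^ 3)⁻¹) (-(3 * r ^ 2 * (inner ℝ (W s) V / r)) / (r ^ 3) ^ 2) s := by
    have h := (h2.pow 3).inv (by change ‖W s‖ ^ 3 ≠ 0; rw [hWr]; positivity)
    refine HasDerivAt.congr_deriv h ?_
    change -(((3 : ℕ) : ℝ) * ‖W s‖ ^ (3 - 1) * (2 * inner ℝ (W s) V / (2 * r))) / (‖W s‖ ^ 3) ^ 2 = _
    rw [hWr]
    norm_num
    field_simp
  have h4 : HasDerivAt (fun u => gf (W u)) (((-(3 * r ^ 2 * (inner ℝ (W s) V / r)) / (r ^ 3) ^ 2 : ℝ) : ℂ) * W s +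
      (((‖W s‖ ^ 3)⁻¹ : ℝ) : ℂ) * V) s := (h3.ofReal_comp).mul hW
  refine h4.congr_deriv ?_
  have hin : ((inner ℝ (W s) V : ℝ) : ℂ) = (conj (W s) * V + W s * conj V) / 2 := by
    have e2 : (inner ℝ (W s) V : ℝ) = (conj (W s) * V).re := by
      rw [Complex.inner, mul_comm]
    rw [e2, Complex.re_eq_add_conj]
    simp [mul_comm]
  have hnn : W s * conj (W s) = (r : ℂ) ^ 2 := by
    rw [Complex.mul_conj, Complex.normSq_eq_norm_sq, hWr]
    push_cast; ring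
  have hrc : (r : ℂ) ≠ 0 := by exact_mod_cast hr.ne'
  rw [hWr]
  push_cast
  rw [hin]
  field_simp
  linear_combination (-(3 : ℂ) * V) * hnn

theorem acc3 (m : Fin 3 → ℝ) (q : Fin 3 → ℂ) :
    acc m q 0 = m 1 * gf (q 1 - q 0) - m 2 * gf (q 0 - q 2) ∧
    acc m q 1 = -(m 0 * gf (q 1 - q 0)) + m 2 * gf (q 2 - q 1) ∧
    acc m q 2 = m 0 * gf (q 0 - q 2) - m 1 * gf (q 2 - q 1) := by
  have e0 : (Finset.univ.erase (0 : Fin 3)) = {1, 2} := by decide
  have e1 : (Finset.univ.erase (1 : Fin 3)) = {0, 2} := by decide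
  have e2 : (Finset.univ.erase (2 : Fin 3)) = {0, 1} := by decide
  have h : ∀ (μ : ℝ) (w : ℂ), ((μ / ‖w‖ ^ 3 : ℝ) : ℂ) * w = μ * gf w := by
    intro μ w
    unfold gf
    push_cast
    rw [div_eq_mul_inv]; ring
  refine ⟨?_, ?_, ?_⟩
  · unfold acc
    rw [e0, Finset.sum_pair (by decide), h, h, ← neg_sub (q 0) (q 2), gf_neg]
    ring
  · unfold acc
    rw [e1, Finset.sum_pair (by decide), h, h, ← neg_sub (q 1) (q 0), gf_neg]
    ring
  · unfold acc
    rw [e2, Finset.sum_pair (by decide), h, h, ← neg_sub (q 2) (q 1), gf_neg]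
    ring

theorem variation {n : ℕ} {m : Fin n → ℝ} {y : ℝ → ℝ → Ph n}
    (hC : ContDiff ℝ 2 (fun p : ℝ × ℝ => y p.1 p.2)) (hy : ∀ s, IsSol m Set.univ (y s))
    {S : ℝ → ℝ} {S' : ℝ} (hS : HasDerivAt S S' 0) :
    ∃ (ξ η α : ℝ → Fin n → ℂ),
      (∀ t a, HasDerivAt (fun s => (y s t).1 a) (ξ t a) 0) ∧
      (∀ t a, HasDerivAt (fun s => acc m (y s t).1 a) (α t a) 0) ∧
      (∀ t a, HasDerivAt (fun t => ξ t a) (η t a) t) ∧
      (∀ t a, HasDerivAt (fun t => η t a) (α t a) t) ∧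
      (∀ t a, HasDerivAt (fun s => (y s (t + 2 * S s)).1 a)
        (ξ (t + 2 * S 0) a + 2 * S' * (y 0 (t + 2 * S 0)).2 a) 0) := by
  obtain ⟨w, d, W, F', hF1, hwF, hdF, hys, hyt, hwt, hds⟩ := mixed hC
  simp only at hys hyt
  have hvf : ∀ s t, d s t = ((y s t).2, acc m (y s t).1) := fun s t =>
    (hyt s t).unique ((hy s).hasDerivAt t)
  have hd1 : ∀ t a, HasDerivAt (fun s => (y s t).2 a) ((W 0 t).1 a) 0 := by
    intro t a
    have h := fst_deriv (hds 0 t) a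
    simpa only [hvf] using h
  have hd2 : ∀ t a, HasDerivAt (fun s => acc m (y s t).1 a) ((W 0 t).2 a) 0 := by
    intro t a
    have h := snd_deriv (hds 0 t) a
    simpa only [hvf] using h
  refine ⟨fun t a => (w 0 t).1 a, fun t a => (W 0 t).1 a, fun t a => (W 0 t).2 a,
    fun t a => fst_deriv (hys 0 t) a, hd2, fun t a => fst_deriv (hwt 0 t) a, ?_, ?_⟩
  · intro t a
    have e : (fun t => (W 0 t).1 a) = fun t => (w 0 t).2 a := by
      funext u
      exact (hd1 u a).unique (snd_deriv (hys 0 u) a)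
    rw [e]
    exact snd_deriv (hwt 0 t) a
  · intro t a
    have hl : HasDerivAt (fun s : ℝ => (s, t + 2 * S s)) ((1 : ℝ), 2 * S') 0 := by
      refine (hasDerivAt_id (0 : ℝ)).prodMk ?_
      have := (hS.const_mul 2).const_add t
      exact this
    have h := HasFDerivAt.comp_hasDerivAt (f := fun s : ℝ => (s, t + 2 * S s)) 0
      (hF1 ((0 : ℝ), t + 2 * S 0)) hl
    have h2 := fst_deriv (z := fun s => y s (t + 2 * S s)) h a
    refine h2.congr_deriv ?_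
    have e1 : ((1 : ℝ), 2 * S') = ((1 : ℝ), (0 : ℝ)) + (2 * S') • ((0 : ℝ), (1 : ℝ)) := by
      ext <;> simp
    rw [e1, map_add, map_smul, hwF, hdF, hvf]
    simp

end Pool.Agent.U785.LG
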