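import Pool.Agent.U785.LG.B

/-!
# The shape of a nearly equilateral triangle: the linear equation and its periods
-/

set_option autoImplicit false

namespace Pool.Agent.U785.LG

open Complex ComplexConjugate Pool.Agent.W821.TB

/-- The linearised force at the equilateral triangle, in the side differences. -/
theorem core {m0 m1 m2 : ℝ} {ω r : ℝ} (hr : 0 < r) (hM : ω ^ 2 * r ^ 3 = m0 + m1 + m2)
    {v w₁ V0 V1 E : ℂ} (hv : v ^ 2 + v + 1 = 0) (hvc : conj v = v ^ 2) (hw₁ : ‖w₁‖ = r)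
    (hE : E * conj E = 1) :
    (E * ((-((m1 : ℂ) + m2) * (-(1 / (2 * (r : ℂ) ^ 3)) *
          (V0 + 3 * (v * (conj E * w₁)) ^ 2 * conj V0 / (r : ℂ) ^ 2)) +
        m0 * ((-(1 / (2 * (r : ℂ) ^ 3)) * (V1 + 3 * (conj E * w₁) ^ 2 * conj V1 / (r : ℂ) ^ 2)) +
          (-(1 / (2 * (r : ℂ) ^ 3)) * ((-V0 - V1) + 3 * (-(v * (conj E * w₁)) - conj E * w₁) ^ 2 *
            conj (-V0 - V1) / (r : ℂ) ^ 2)))) -
      v * (-((m0 : ℂ) + m2) * (-(1 / (2 * (r : ℂ) ^ 3)) *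
          (V1 + 3 * (conj E * w₁) ^ 2 * conj V1 / (r : ℂ) ^ 2)) +
        m1 * ((-(1 / (2 * (r : ℂ) ^ 3)) * (V0 + 3 * (v * (conj E * w₁)) ^ 2 * conj V0 /
            (r : ℂ) ^ 2)) +
          (-(1 / (2 * (r : ℂ) ^ 3)) * ((-V0 - V1) + 3 * (-(v * (conj E * w₁)) - conj E * w₁) ^ 2 *
            conj (-V0 - V1) / (r : ℂ) ^ 2))))) + ω ^ 2 * (E * (V0 - v * V1))) / w₁ =
      ((3 / 2 * ω ^ 2 : ℝ) : ℂ) * (E * (V0 - v * V1) / w₁) +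
        (3 / (2 * (r : ℂ) ^ 3) * (m1 + m0 * v + m2 * v ^ 2)) *
          conj (E * (V0 - v * V1) / w₁) := by
  have hrc : (r : ℂ) ≠ 0 := by exact_mod_cast hr.ne'
  have hw0 : w₁ ≠ 0 := by
    intro h; rw [h, norm_zero] at hw₁; linarith
  have hwc0 : conj w₁ ≠ 0 := (map_ne_zero _).2 hw0
  have hnn : w₁ * conj w₁ = (r : ℂ) ^ 2 := by
    rw [Complex.mul_conj, Complex.normSq_eq_norm_sq, hw₁]; push_cast; ring
  have hMc : (ω : ℂ) ^ 2 = (m0 + m1 + m2) * (2 * (1 / (2 * (r : ℂ) ^ 3))) := by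
    have : (ω : ℂ) ^ 2 * (r : ℂ) ^ 3 = m0 + m1 + m2 := by exact_mod_cast hM
    field_simp
    linear_combination this
  have hcD : (r : ℂ) ^ 2 * conj (E * (V0 - v * V1) / w₁) =
      w₁ * conj E * (conj V0 - v ^ 2 * conj V1) := by
    rw [← hnn, map_div₀, map_mul, map_sub, map_mul, hvc]
    field_simp
  have hcD2 : conj (E * (V0 - v * V1) / w₁) =
      w₁ * conj E * (conj V0 - v ^ 2 * conj V1) / (r : ℂ) ^ 2 := by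
    rw [← hcD]; field_simp
  rw [hcD2]
  simp only [map_sub, map_neg]
  obtain ⟨s3, hs3⟩ : ∃ s3 : ℂ, s3 = 1 / (2 * (r : ℂ) ^ 3) := ⟨_, rfl⟩
  obtain ⟨s5, hs5⟩ : ∃ s5 : ℂ, s5 = ((r : ℂ) ^ 2)⁻¹ := ⟨_, rfl⟩
  obtain ⟨a0, ha0⟩ : ∃ a0 : ℂ, a0 = conj V0 := ⟨_, rfl⟩
  obtain ⟨a1, ha1⟩ : ∃ a1 : ℂ, a1 = conj V1 := ⟨_, rfl⟩
  obtain ⟨W, hW⟩ : ∃ W : ℂ, W = conj E * w₁ := ⟨_, rfl⟩
  have e3 : 3 / (2 * (r : ℂ) ^ 3) = 3 * s3 := by rw [hs3]; ring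
  rw [e3, ← hs3, ← ha0, ← ha1, ← hW]
  rw [← hs3] at hMc
  have hWE : E * W = w₁ := by rw [hW]; linear_combination w₁ * hE
  have hW2 : w₁ * conj E = W := by rw [hW]; ring
  rw [hW2]
  simp only [div_eq_mul_inv _ ((r : ℂ) ^ 2), ← hs5]
  rw [eq_comm, ← sub_eq_zero]
  have hfin : (E * (-((m1 : ℂ) + m2) * (-s3 * (V0 + 3 * (v * W) ^ 2 * a0 * s5)) +
        m0 * (-s3 * (V1 + 3 * W ^ 2 * a1 * s5) +
          -s3 * (-V0 - V1 + 3 * (-(v * W) - W) ^ 2 * (-a0 - a1) * s5)) -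
      v * (-((m0 : ℂ) + m2) * (-s3 * (V1 + 3 * W ^ 2 * a1 * s5)) +
        m1 * (-s3 * (V0 + 3 * (v * W) ^ 2 * a0 * s5) +
          -s3 * (-V0 - V1 + 3 * (-(v * W) - W) ^ 2 * (-a0 - a1) * s5)))) +
        ω ^ 2 * (E * (V0 - v * V1))) =
      3 / 2 * ω ^ 2 * (E * (V0 - v * V1)) +
        3 * s3 * (m1 + m0 * v + m2 * v ^ 2) * (W * (a0 - v ^ 2 * a1) * s5) * w₁ := by
    linear_combination (E * (3 * W ^ 2 * s3 * s5 * (a0 * (m0 - m1) + a1 * v * (m0 - m1 - m2) +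
      a1 * m2 * v ^ 2))) * hv + (3 * s3 * (m1 + m0 * v + m2 * v ^ 2) *
        (W * (a0 - v ^ 2 * a1) * s5)) * hWE - (1 / 2) * (E * (V0 - v * V1)) * hMc
  rw [sub_eq_zero, hfin]
  push_cast
  field_simp

theorem norm_kappa {m0 m1 m2 : ℝ} {v : ℂ} (hv : v ^ 2 + v + 1 = 0) (hvc : conj v = v ^ 2) :
    ‖((m1 : ℂ) + m0 * v + m2 * v ^ 2)‖ ^ 2 =
      m0 ^ 2 + m1 ^ 2 + m2 ^ 2 - m0 * m1 - m1 * m2 - m2 * m0 := by
  have h : (((‖((m1 : ℂ) + m0 * v + m2 * v ^ 2)‖ ^ 2 : ℝ)) : ℂ) =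
      ((m0 ^ 2 + m1 ^ 2 + m2 ^ 2 - m0 * m1 - m1 * m2 - m2 * m0 : ℝ) : ℂ) := by
    have e : (((‖((m1 : ℂ) + m0 * v + m2 * v ^ 2)‖ ^ 2 : ℝ)) : ℂ) =
        ((m1 : ℂ) + m0 * v + m2 * v ^ 2) * conj ((m1 : ℂ) + m0 * v + m2 * v ^ 2) := by
      rw [Complex.mul_conj, Complex.normSq_eq_norm_sq]
    rw [e]
    simp only [map_add, map_mul, map_pow, Complex.conj_ofReal, hvc]
    push_cast
    linear_combination ((m0 : ℂ) * m1 + m0 * m2 - m0 * m2 * v + m0 * m2 * v ^ 3 - m0 ^ 2 + m0 ^ 2 * v + m1 * m2 -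
      m1 * m2 * v + m1 * m2 * v ^ 2 - m2 ^ 2 + m2 ^ 2 * v - m2 ^ 2 * v ^ 3 + m2 ^ 2 * v ^ 4) * hv
  exact_mod_cast h

end Pool.Agent.U785.LG
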