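import Pool.Agent.U785.LG.C

/-!
# The period of an analytic family at the equilateral relative equilibrium
-/

set_option autoImplicit false

namespace Pool.Agent.U785.LG

open Complex ComplexConjugate Pool.Agent.W821.TB

/-- The shape of the triangle: the quotient of two of its sides as complex numbers. -/
noncomputable def shape (z : Ph 3) : ℂ := (z.1 2 - z.1 1) / (z.1 0 - z.1 2)

theorem cube_root {w0 w1 w2 : ℂ} {r : ℝ} (hr : 0 < r) (h0 : ‖w0‖ = r) (h1 : ‖w1‖ = r)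
    (h2 : ‖w2‖ = r) (hs : w0 + w1 + w2 = 0) :
    ∃ v : ℂ, v ^ 2 + v + 1 = 0 ∧ conj v = v ^ 2 ∧ w0 = v * w1 := by
  have hw1 : w1 ≠ 0 := by
    intro h; rw [h, norm_zero] at h1; linarith
  have e0 : w0 = (w0 / w1) * w1 := by field_simp
  have e2 : w2 = -(1 + w0 / w1) * w1 := by
    field_simp
    linear_combination hs
  have n0 : ‖w0 / w1‖ = 1 := by
    rw [norm_div, h0, h1]; field_simp
  have n2 : ‖1 + w0 / w1‖ = 1 := by
    have h := h2
    rw [e2, norm_mul, norm_neg, h1] at h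
    have hr0 : r ≠ 0 := hr.ne'
    exact mul_right_cancel₀ hr0 (by rw [one_mul]; exact h)
  obtain ⟨v, hv⟩ : ∃ v : ℂ, v = w0 / w1 := ⟨_, rfl⟩
  rw [← hv] at n0 n2 e0
  have k1 : v * conj v = 1 := by
    rw [Complex.mul_conj, Complex.normSq_eq_norm_sq, n0]; norm_num
  have k2 : (1 + v) * conj (1 + v) = 1 := by
    rw [Complex.mul_conj, Complex.normSq_eq_norm_sq, n2]; norm_num
  rw [map_add, map_one] at k2
  have k3 : conj v = -1 - v := by linear_combination k2 - k1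
  have k4 : v ^ 2 + v + 1 = 0 := by
    rw [k3] at k1
    linear_combination -k1
  exact ⟨v, k4, by rw [k3]; linear_combination -k4, e0⟩

theorem shape_mode {m : Fin 3 → ℝ} (hm : ∀ a, 0 < m a) {y : ℝ → ℝ → Ph 3}
    (hC : ContDiff ℝ 2 (fun p : ℝ × ℝ => y p.1 p.2)) (hy : ∀ s, IsSol m Set.univ (y s))
    {S : ℝ → ℝ} {S' : ℝ} (hS : HasDerivAt S S' 0) (hS0 : 0 < S 0) {c : ℂ}
    (hc : ∀ s t, y s (t + 2 * S s) = c • y s t) {ω r : ℝ}
    (hrot : ∀ t : ℝ, y 0 t = exp (ω * t * I) • y 0 0)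
    (heq : ∀ a b, a ≠ b → ‖(y 0 0).1 a - (y 0 0).1 b‖ = r)
    (hdir : ∃ t, deriv (fun s => shape (y s t)) 0 ≠ 0) :
    ω ≠ 0 ∧ c = exp (ω * (2 * S 0 : ℝ) * I) ∧ ∃ k : ℤ,
      (Real.pi * k / (S 0 * ω)) ^ 4 - (Real.pi * k / (S 0 * ω)) ^ 2 +
        27 / 4 * ((m 0 * m 1 + m 1 * m 2 + m 2 * m 0) / (m 0 + m 1 + m 2) ^ 2) = 0 := by
  obtain ⟨ξ, η, α, h1, h2, h3, h4, h5⟩ := variation hC hy hS
  obtain ⟨e, he⟩ : ∃ e : ℝ → ℂ, ∀ t : ℝ, e t = exp (ω * t * I) := ⟨fun t => exp (ω * t * I), fun _ => rfl⟩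
  obtain ⟨p, hp⟩ : ∃ p : Fin 3 → ℂ, ∀ a, p a = (y 0 0).1 a := ⟨_, fun _ => rfl⟩
  have hpos : ∀ t a, (y 0 t).1 a = e t * p a := by
    intro t a
    rw [hrot t, ← he t, hp a]; rfl
  have hed : ∀ t : ℝ, HasDerivAt e (ω * I * e t) t := by
    intro t
    have h : HasDerivAt (fun t : ℝ => ((ω : ℂ) * (t : ℂ) * I)) ((ω : ℂ) * 1 * I) t :=
      ((Complex.ofRealCLM.hasDerivAt (x := t)).const_mul _).mul_const _
    have h' := h.cexp
    have e1 : (fun t : ℝ => exp ((ω : ℂ) * (t : ℂ) * I)) = e := by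
      funext u; exact (he u).symm
    rw [e1] at h'
    refine h'.congr_deriv ?_
    rw [he t]; ring
  have hvel : ∀ t a, (y 0 t).2 a = ω * I * (e t * p a) := by
    intro t a
    have k1 := hasDerivAt_pos (hy 0) t a
    have k2 : HasDerivAt (fun s => (y 0 s).1 a) (ω * I * e t * p a) t := by
      have e1 : (fun s => (y 0 s).1 a) = fun s => e s * p a := by
        funext s; exact hpos s a
      rw [e1]
      exact (hed t).mul_const _
    rw [k1.unique k2]; ring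
  have hac : ∀ t a, acc m (y 0 t).1 a = -(ω : ℂ) ^ 2 * (e t * p a) := by
    intro t a
    have k1 := hasDerivAt_vel (hy 0) t a
    have k2 : HasDerivAt (fun s => (y 0 s).2 a) (ω * I * (ω * I * e t * p a)) t := by
      have e1 : (fun s => (y 0 s).2 a) = fun s => ω * I * (e s * p a) := by
        funext s; exact hvel s a
      rw [e1]
      exact ((hed t).mul_const _).const_mul _
    rw [k1.unique k2]
    have hI : I * I = -1 := Complex.I_mul_I
    linear_combination (ω : ℂ) ^ 2 * e t * p a * hI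
  have hen : ∀ t, ‖e t‖ = 1 := by
    intro t
    rw [he t]
    have : (ω : ℂ) * t * I = ((ω * t : ℝ) : ℂ) * I := by push_cast; ring
    rw [this]
    exact Complex.norm_exp_ofReal_mul_I _
  have hece : ∀ t, e t * conj (e t) = 1 := by
    intro t
    rw [Complex.mul_conj, Complex.normSq_eq_norm_sq, hen t]; norm_num
  have he0 : ∀ t, e t ≠ 0 := fun t h => by have := hen t; rw [h, norm_zero] at this; norm_num at this
  -- the sides at the equilibrium
  have n0 : ‖p 2 - p 1‖ = r := by rw [hp, hp]; exact heq 2 1 (by decide)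
  have n1 : ‖p 0 - p 2‖ = r := by rw [hp, hp]; exact heq 0 2 (by decide)
  have n2 : ‖p 1 - p 0‖ = r := by rw [hp, hp]; exact heq 1 0 (by decide)
  have hr : 0 < r := by
    rw [← n1, norm_pos_iff, sub_ne_zero, hp, hp]
    exact ((hy 0).mem 0).1 0 2 (by decide)
  obtain ⟨v, hv, hvc, hw0⟩ := cube_root hr n0 n1 n2 (by ring)
  have hw1 : p 0 - p 2 ≠ 0 := by
    intro h; rw [h, norm_zero] at n1; linarith
  have hw2 : p 1 - p 0 = -(v * (p 0 - p 2)) - (p 0 - p 2) := by rw [← hw0]; ring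
  have hrc : (r : ℂ) ≠ 0 := by exact_mod_cast hr.ne'
  have hMpos : 0 < m 0 + m 1 + m 2 := by have := hm 0; have := hm 1; have := hm 2; positivity
  -- the angular velocity
  have hM : ω ^ 2 * r ^ 3 = m 0 + m 1 + m 2 := by
    have ha := acc3 m (y 0 0).1
    have gk : ∀ w : ℂ, ‖w‖ = r → gf w = ((r : ℂ) ^ 3)⁻¹ * w := by
      intro w hw
      unfold gf
      rw [hw]; push_cast; rfl
    have b2 := hac 0 2
    have b1 := hac 0 1
    rw [ha.2.2] at b2
    rw [ha.2.1] at b1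
    have he00 : e 0 = 1 := by rw [he]; simp
    simp only [← hp] at b2 b1
    rw [gk _ n1, gk _ n0, he00] at b2
    rw [gk _ n2, gk _ n0, he00] at b1
    have hw0n : p 2 - p 1 ≠ 0 := by
      intro h; rw [h, norm_zero] at n0; linarith
    have k : ((r : ℂ) ^ 3)⁻¹ * (m 0 + m 1 + m 2) * (p 2 - p 1) = ω ^ 2 * (p 2 - p 1) := by
      linear_combination b1 - b2
    have k' := mul_right_cancel₀ hw0n k
    have k2 : (ω : ℂ) ^ 2 * (r : ℂ) ^ 3 = m 0 + m 1 + m 2 := by
      rw [← k']; field_simp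
    exact_mod_cast k2
  have hω : ω ≠ 0 := by
    rintro rfl
    rw [zero_pow (by norm_num), zero_mul] at hM
    linarith
  -- the rotation of the family
  have hcexp : c = e (2 * S 0) := by
    have k := hc 0 0
    rw [zero_add] at k
    have k1 := congrArg (fun z : Ph 3 => z.1 0 - z.1 2) k
    simp only [Prod.smul_fst, Pi.smul_apply, smul_eq_mul] at k1
    rw [hpos, hpos, ← hp, ← hp] at k1
    have : e (2 * S 0) * (p 0 - p 2) = c * (p 0 - p 2) := by linear_combination k1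
    exact (mul_right_cancel₀ hw1 this).symm
  -- the variation of the sides
  have side : ∀ t a b, HasDerivAt (fun s => (y s t).1 a - (y s t).1 b) (ξ t a - ξ t b) 0 :=
    fun t a b => (h1 t a).sub (h1 t b)
  have sn : ∀ t a b, a ≠ b → ‖(y 0 t).1 a - (y 0 t).1 b‖ = r := by
    intro t a b hab
    rw [hpos, hpos, ← mul_sub, norm_mul, hen, one_mul, hp, hp]
    exact heq a b hab
  obtain ⟨G, hG⟩ : ∃ G : ℝ → Fin 3 → Fin 3 → ℂ, ∀ t a b, G t a b =
      -(1 / (2 * (r : ℂ) ^ 3)) * ((ξ t a - ξ t b) +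
        3 * (e t * (p a - p b)) ^ 2 * conj (ξ t a - ξ t b) / (r : ℂ) ^ 2) := ⟨_, fun _ _ _ => rfl⟩
  have hgd : ∀ t a b, a ≠ b → HasDerivAt (fun s => gf ((y s t).1 a - (y s t).1 b)) (G t a b) 0 := by
    intro t a b hab
    have k := hasDerivAt_gf (side t a b) hr (sn t a b hab)
    refine k.congr_deriv ?_
    rw [hG, hpos, hpos, ← mul_sub]
  have hα0 : ∀ t, α t 0 = m 1 * G t 1 0 - m 2 * G t 0 2 := by
    intro t
    have k : HasDerivAt (fun s => acc m (y s t).1 0) (m 1 * G t 1 0 - m 2 * G t 0 2) 0 := by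
      have e1 : (fun s => acc m (y s t).1 0) = fun s => (m 1 : ℂ) * gf ((y s t).1 1 - (y s t).1 0) -
          m 2 * gf ((y s t).1 0 - (y s t).1 2) := by
        funext s; exact (acc3 m _).1
      rw [e1]
      exact ((hgd t 1 0 (by decide)).const_mul _).sub ((hgd t 0 2 (by decide)).const_mul _)
    exact (h2 t 0).unique k
  have hα1 : ∀ t, α t 1 = -(m 0 * G t 1 0) + m 2 * G t 2 1 := by
    intro t
    have k : HasDerivAt (fun s => acc m (y s t).1 1) (-(m 0 * G t 1 0) + m 2 * G t 2 1) 0 := by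
      have e1 : (fun s => acc m (y s t).1 1) = fun s =>
          -((m 0 : ℂ) * gf ((y s t).1 1 - (y s t).1 0)) +
          m 2 * gf ((y s t).1 2 - (y s t).1 1) := by
        funext s; exact (acc3 m _).2.1
      rw [e1]
      exact ((hgd t 1 0 (by decide)).const_mul _).neg.add ((hgd t 2 1 (by decide)).const_mul _)
    exact (h2 t 1).unique k
  have hα2 : ∀ t, α t 2 = m 0 * G t 0 2 - m 1 * G t 2 1 := by
    intro t
    have k : HasDerivAt (fun s => acc m (y s t).1 2) (m 0 * G t 0 2 - m 1 * G t 2 1) 0 := by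
      have e1 : (fun s => acc m (y s t).1 2) = fun s => (m 0 : ℂ) * gf ((y s t).1 0 - (y s t).1 2) -
          m 1 * gf ((y s t).1 2 - (y s t).1 1) := by
        funext s; exact (acc3 m _).2.2
      rw [e1]
      exact ((hgd t 0 2 (by decide)).const_mul _).sub ((hgd t 2 1 (by decide)).const_mul _)
    exact (h2 t 2).unique k
  -- the function `D`
  obtain ⟨w₁, hw₁⟩ : ∃ w₁ : ℂ, w₁ = p 0 - p 2 := ⟨_, rfl⟩
  rw [← hw₁] at hw1 hw2 hw0 n1
  obtain ⟨E, hE⟩ : ∃ E : ℝ → ℂ, ∀ t, E t = conj (e t) := ⟨_, fun _ => rfl⟩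
  have hEe : ∀ t, E t * e t = 1 := fun t => by rw [hE, mul_comm]; exact hece t
  have hEc : ∀ t, conj (E t) = e t := fun t => by rw [hE, Complex.conj_conj]
  have hEd : ∀ t, HasDerivAt E (-(ω * I) * E t) t := by
    intro t
    have k : HasDerivAt (fun t => conj (e t)) (conj (ω * I * e t)) t := (hed t).star
    have e1 : (fun t => conj (e t)) = E := by funext u; exact (hE u).symm
    rw [e1] at k
    refine k.congr_deriv ?_
    rw [hE, map_mul, map_mul, Complex.conj_ofReal, Complex.conj_I]; ring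
  set D : ℝ → ℂ := fun t => E t * ((ξ t 2 - ξ t 1) - v * (ξ t 0 - ξ t 2)) / w₁ with hD
  set D1 : ℝ → ℂ := fun t => (E t * ((η t 2 - η t 1) - v * (η t 0 - η t 2)) -
    ω * I * (E t * ((ξ t 2 - ξ t 1) - v * (ξ t 0 - ξ t 2)))) / w₁ with hD1
  set D2 : ℝ → ℂ := fun t => (E t * ((α t 2 - α t 1) - v * (α t 0 - α t 2)) -
    2 * (ω * I) * (E t * ((η t 2 - η t 1) - v * (η t 0 - η t 2))) -
    ω ^ 2 * (E t * ((ξ t 2 - ξ t 1) - v * (ξ t 0 - ξ t 2)))) / w₁ with hD2
  have hX : ∀ t, HasDerivAt (fun t => (ξ t 2 - ξ t 1) - v * (ξ t 0 - ξ t 2))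
      ((η t 2 - η t 1) - v * (η t 0 - η t 2)) t := fun t =>
    ((h3 t 2).sub (h3 t 1)).sub (((h3 t 0).sub (h3 t 2)).const_mul v)
  have hZ : ∀ t, HasDerivAt (fun t => (η t 2 - η t 1) - v * (η t 0 - η t 2))
      ((α t 2 - α t 1) - v * (α t 0 - α t 2)) t := fun t =>
    ((h4 t 2).sub (h4 t 1)).sub (((h4 t 0).sub (h4 t 2)).const_mul v)
  have hI : I * I = -1 := Complex.I_mul_I
  have hdD : ∀ t, HasDerivAt D (D1 t) t := by
    intro t
    have k := ((hEd t).mul (hX t)).div_const w₁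
    refine HasDerivAt.congr_deriv k ?_
    rw [hD1]
    simp only
    congr 1
    ring
  have hdD1 : ∀ t, HasDerivAt D1 (D2 t) t := by
    intro t
    have k := (((hEd t).mul (hZ t)).sub (((hEd t).mul (hX t)).const_mul (ω * I))).div_const w₁
    refine HasDerivAt.congr_deriv k ?_
    rw [hD2]
    simp only
    congr 1
    linear_combination (ω : ℂ) ^ 2 * E t * ((ξ t 2 - ξ t 1) - v * (ξ t 0 - ξ t 2)) * hI
  have hode : ∀ t, D2 t + 2 * I * ω * D1 t = ((3 / 2 * ω ^ 2 : ℝ) : ℂ) * D t +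
      (3 / (2 * (r : ℂ) ^ 3) * (m 1 + m 0 * v + m 2 * v ^ 2)) * conj (D t) := by
    intro t
    have k := core (m0 := m 0) (m1 := m 1) (m2 := m 2) hr hM hv hvc n1
      (V0 := ξ t 2 - ξ t 1) (V1 := ξ t 0 - ξ t 2) (E := E t) (by rw [hEc]; exact hEe t)
    rw [hEc t] at k
    rw [hD]
    simp only
    rw [← k, hD2, hD1]
    simp only
    rw [hα0, hα1, hα2, hG, hG, hG, hw0, hw2, ← hw₁]
    have e1 : ξ t 1 - ξ t 0 = -(ξ t 2 - ξ t 1) - (ξ t 0 - ξ t 2) := by ring
    have e2 : e t * (v * w₁) = v * (e t * w₁) := by ring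
    have e3 : e t * (-(v * w₁) - w₁) = -(v * (e t * w₁)) - e t * w₁ := by ring
    rw [e1, e2, e3]
    rw [← mul_div_assoc, ← add_div]
    congr 1
    linear_combination (-(2 : ℂ) * ω ^ 2 * (E t * (ξ t 2 - ξ t 1 - v * (ξ t 0 - ξ t 2)))) * hI
  have hperD : ∀ t, D (t + 2 * S 0) = D t := by
    intro t
    have kk : ∀ a, ξ (t + 2 * S 0) a + 2 * S' * (ω * I * (e (t + 2 * S 0) * p a)) = c * ξ t a := by
      intro a
      have k1 := h5 t a
      rw [hvel] at k1
      have k2 : HasDerivAt (fun s => (y s (t + 2 * S s)).1 a) (c * ξ t a) 0 := by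
        have e1 : (fun s => (y s (t + 2 * S s)).1 a) = fun s => c * (y s t).1 a := by
          funext s; rw [hc s t]; rfl
        rw [e1]
        exact (h1 t a).const_mul c
      exact k1.unique k2
    have hadd : E (t + 2 * S 0) * c = E t := by
      have e1 : e (t + 2 * S 0) = e t * e (2 * S 0) := by
        rw [he, he, he, ← Complex.exp_add]
        congr 1
        push_cast; ring
      have e2 : E (t + 2 * S 0) = E t * E (2 * S 0) := by
        rw [hE, e1, map_mul, hE, hE]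
      rw [e2, hcexp, mul_assoc, hEe, mul_one]
    have hXc : (ξ (t + 2 * S 0) 2 - ξ (t + 2 * S 0) 1) - v * (ξ (t + 2 * S 0) 0 - ξ (t + 2 * S 0) 2)
        = c * ((ξ t 2 - ξ t 1) - v * (ξ t 0 - ξ t 2)) := by
      have k2 := kk 2
      have k1 := kk 1
      have k0 := kk 0
      linear_combination k2 - k1 - v * (k0 - k2) -
        (2 * S' * (ω * I * e (t + 2 * S 0))) * hw0 -
        (2 * S' * (ω * I * e (t + 2 * S 0))) * v * hw₁
    rw [hD]
    simp only
    rw [hXc, ← mul_assoc, hadd]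
  have hneD : ∃ t, D t ≠ 0 := by
    obtain ⟨t, ht⟩ := hdir
    refine ⟨t, fun h0 => ht ?_⟩
    have hne : (y 0 t).1 0 - (y 0 t).1 2 ≠ 0 := by
      rw [hpos, hpos, ← mul_sub, ← hw₁]
      exact mul_ne_zero (he0 t) hw1
    have k := (side t 2 1).div (side t 0 2) hne
    have k' := HasDerivAt.deriv k
    have e1 : deriv (fun s => shape (y s t)) 0 = deriv ((fun s => (y s t).1 2 - (y s t).1 1) /
      (fun s => (y s t).1 0 - (y s t).1 2)) 0 := rfl
    rw [e1, k', hpos, hpos, hpos, ← mul_sub, ← mul_sub, hw0, ← hw₁]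
    have hX0 : (ξ t 2 - ξ t 1) - v * (ξ t 0 - ξ t 2) = 0 := by
      rw [hD] at h0
      simp only at h0
      rcases div_eq_zero_iff.1 h0 with h | h
      · rcases mul_eq_zero.1 h with h | h
        · have := hEe t
          rw [h, zero_mul] at this
          exact absurd this (by norm_num)
        · exact h
      · exact absurd h hw1
    rw [div_eq_zero_iff]
    left
    linear_combination e t * w₁ * hX0
  obtain ⟨k, hk⟩ := mode (P := 2 * S 0) (w := ω) (a := 3 / 2 * ω ^ 2)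
    (b := 3 / (2 * (r : ℂ) ^ 3) * (m 1 + m 0 * v + m 2 * v ^ 2)) (by positivity) hdD hdD1 hperD hode
    hneD
  refine ⟨hω, ?_, k, ?_⟩
  · rw [hcexp, he]
  · rw [norm_mul, mul_pow, norm_kappa hv hvc] at hk
    have hb : ‖3 / (2 * (r : ℂ) ^ 3)‖ = 3 / (2 * r ^ 3) := by
      have : (3 / (2 * (r : ℂ) ^ 3)) = ((3 / (2 * r ^ 3) : ℝ) : ℂ) := by push_cast; rfl
      rw [this, Complex.norm_real, Real.norm_of_nonneg (by positivity)]
    rw [hb] at hk
    have hS0' : S 0 ≠ 0 := hS0.ne'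
    have hM0 : m 0 + m 1 + m 2 ≠ 0 := hMpos.ne'
    obtain ⟨q, hq⟩ : ∃ q : ℝ, q = Real.pi * k / (S 0 * ω) := ⟨_, rfl⟩
    have hqX : 2 * Real.pi * k / (2 * S 0) = q * ω := by
      rw [hq]; field_simp
    rw [hqX] at hk
    rw [← hq]
    have hr3 : (3 / (2 * r ^ 3)) ^ 2 = 9 / 4 * ω ^ 4 / (m 0 + m 1 + m 2) ^ 2 := by
      rw [← hM]; field_simp; norm_num
    rw [hr3] at hk
    have hω4 : ω ^ 4 ≠ 0 := pow_ne_zero 4 hω
    have hfin : ω ^ 4 * (q ^ 4 - q ^ 2 +
        27 / 4 * ((m 0 * m 1 + m 1 * m 2 + m 2 * m 0) / (m 0 + m 1 + m 2) ^ 2)) = 0 := by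
      have e1 : (m 0 * m 1 + m 1 * m 2 + m 2 * m 0) / (m 0 + m 1 + m 2) ^ 2 =
          (1 - (m 0 ^ 2 + m 1 ^ 2 + m 2 ^ 2 - m 0 * m 1 - m 1 * m 2 - m 2 * m 0) /
            (m 0 + m 1 + m 2) ^ 2) / 3 := by
        field_simp
        ring
      rw [e1]
      have e2 : 9 / 4 * ω ^ 4 / (m 0 + m 1 + m 2) ^ 2 *
          (m 0 ^ 2 + m 1 ^ 2 + m 2 ^ 2 - m 0 * m 1 - m 1 * m 2 - m 2 * m 0) =
          9 / 4 * ω ^ 4 * ((m 0 ^ 2 + m 1 ^ 2 + m 2 ^ 2 - m 0 * m 1 - m 1 * m 2 - m 2 * m 0) /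
            (m 0 + m 1 + m 2) ^ 2) := by ring
      rw [e2] at hk
      linear_combination hk
    exact (mul_eq_zero.1 hfin).resolve_left hω4

end Pool.Agent.U785.LG
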