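import Pool.Agent.U785.LG.D

/-!
# Analytic families with a Lyapunov stable member, and the Lagrange families
-/

set_option autoImplicit false

namespace Pool.Agent.U785.LG

open Complex ComplexConjugate Filter Topology Pool.Agent.W821.TB

/-- One Lyapunov stable member, not a relative equilibrium, of an analytic family of relative
periodic solutions: all members turn by the same root of unity during two periods. -/
theorem rot_all {n : ℕ} {m : Fin n → ℝ} (hn : 2 ≤ n) (hm : ∀ a, 0 < m a) {y : ℝ → ℝ → Ph n}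
    (hA : AnalyticOnNhd ℝ (fun p : ℝ × ℝ => y p.1 p.2) Set.univ)
    (hy : ∀ s, IsSol m Set.univ (y s)) {S : ℝ → ℝ} (hS : AnalyticOnNhd ℝ S Set.univ)
    (hS0 : ∀ s, 0 < S s) (hper : ∀ s, DistPer (y s) (S s)) {s₂ : ℝ}
    (hne : ¬ IsRelEq (y s₂)) (hst : LyapunovStable m (Set.range (y s₂))) :
    ∃ c : ℂ, (∃ K : ℕ, 1 ≤ K ∧ c ^ K = 1) ∧ ∀ s t, y s (t + 2 * S s) = c • y s t := by
  have hsh : AnalyticOnNhd ℝ (fun p : ℝ × ℝ => ((s₂ + p.1, p.2) : ℝ × ℝ)) Set.univ := by
    intro p _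
    exact (analyticAt_const.add analyticAt_fst).prod analyticAt_snd
  have hC : ContDiff ℝ 2 (fun p : ℝ × ℝ => y (s₂ + p.1) p.2) := by
    have h : AnalyticOnNhd ℝ (fun p : ℝ × ℝ => y (s₂ + p.1) p.2) Set.univ :=
      hA.comp hsh (fun _ _ => Set.mem_univ _)
    exact contDiffOn_univ.1 (h.contDiffOn uniqueDiffOn_univ)
  have hSd : Differentiable ℝ (fun s => S (s₂ + s)) := by
    intro s
    have h1 : DifferentiableAt ℝ S (s₂ + s) := (hS (s₂ + s) (Set.mem_univ _)).differentiableAt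
    exact h1.comp s (by fun_prop)
  obtain ⟨c, hc1, ε, hε, hcε⟩ := rigid (y := fun s t => y (s₂ + s) t) (S := fun s => S (s₂ + s)) hn hm
    hC (fun s => hy _) hSd (fun s => hS0 _) (fun s => hper _) (by simpa using hne)
    (by simpa using hst)
  have hloc : ∀ s t, |s - s₂| < ε → y s (t + 2 * S s) = c • y s t := by
    intro s t hs
    have h := (hcε (s - s₂) hs).1 t
    simpa using h
  refine ⟨c, ?_, ?_⟩
  · rcases final hn hm (hy s₂) (hS0 s₂) (hper s₂) hst with h | ⟨K, hK, hroot, _⟩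
    · exact absurd h hne
    refine ⟨K, hK, (hroot c hc1).1 fun t => ?_⟩
    exact ⟨t + 2 * S s₂, hloc s₂ t (by simpa using hε)⟩
  · intro s t
    have hcur : AnalyticOnNhd ℝ (fun s : ℝ => ((s, t + 2 * S s) : ℝ × ℝ)) Set.univ := by
      intro u hu
      exact analyticAt_id.prod (analyticAt_const.add (analyticAt_const.mul (hS u hu)))
    have hcur2 : AnalyticOnNhd ℝ (fun s : ℝ => ((s, t) : ℝ × ℝ)) Set.univ := by
      intro u _
      exact analyticAt_id.prod analyticAt_const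
    have hY1 : AnalyticOnNhd ℝ (fun s => y s (t + 2 * S s)) Set.univ :=
      hA.comp hcur (fun _ _ => Set.mem_univ _)
    have hY2 : AnalyticOnNhd ℝ (fun s => y s t) Set.univ :=
      hA.comp hcur2 (fun _ _ => Set.mem_univ _)
    have key : ∀ L : Ph n →L[ℝ] ℂ, (∀ z : Ph n, L (c • z) = c * L z) →
        ∀ s, L (y s (t + 2 * S s)) = c * L (y s t) := by
      intro L hL s
      have hG : AnalyticOnNhd ℝ (fun s => L (y s (t + 2 * S s)) - c * L (y s t)) Set.univ := by
        intro u hu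
        have a1 : AnalyticAt ℝ (fun s => L (y s (t + 2 * S s))) u :=
          (L.analyticAt _).comp (hY1 u hu)
        have a2 : AnalyticAt ℝ (fun s => L (y s t)) u := (L.analyticAt _).comp (hY2 u hu)
        exact a1.sub (analyticAt_const.mul a2)
      have hz : (fun s => L (y s (t + 2 * S s)) - c * L (y s t)) =ᶠ[𝓝 s₂] 0 := by
        filter_upwards [Metric.ball_mem_nhds s₂ hε] with u hu
        rw [Metric.mem_ball, Real.dist_eq] at hu
        have h := congrArg L (hloc u t hu)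
        rw [hL] at h
        simp [h]
      have h := hG.eqOn_zero_of_preconnected_of_eventuallyEq_zero isPreconnected_univ
        (Set.mem_univ s₂) hz (Set.mem_univ s)
      exact sub_eq_zero.1 h
    refine Prod.ext ?_ ?_
    · funext a
      exact key ((ContinuousLinearMap.proj a).comp (ContinuousLinearMap.fst ℝ _ _)) (fun z => rfl) s
    · funext a
      exact key ((ContinuousLinearMap.proj a).comp (ContinuousLinearMap.snd ℝ _ _)) (fun z => rfl) s

/-- No member of a family through the equilateral relative equilibrium is stable. -/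
theorem lagrange {m : Fin 3 → ℝ} (hm : ∀ a, 0 < m a)
    (hβ : ∀ q : ℚ, (m 0 * m 1 + m 1 * m 2 + m 2 * m 0) / (m 0 + m 1 + m 2) ^ 2 ≠
      4 / 27 * ((q : ℝ) ^ 2 * (1 - (q : ℝ) ^ 2)))
    {y : ℝ → ℝ → Ph 3} (hA : AnalyticOnNhd ℝ (fun p : ℝ × ℝ => y p.1 p.2) Set.univ)
    (hy : ∀ s, IsSol m Set.univ (y s)) {S : ℝ → ℝ} (hS : AnalyticOnNhd ℝ S Set.univ)
    (hS0 : ∀ s, 0 < S s) (hper : ∀ s, DistPer (y s) (S s)) {ω r : ℝ}
    (hrot : ∀ t : ℝ, y 0 t = exp (ω * t * I) • y 0 0)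
    (heq : ∀ a b, a ≠ b → ‖(y 0 0).1 a - (y 0 0).1 b‖ = r)
    (hdir : ∃ t, deriv (fun s => shape (y s t)) 0 ≠ 0) {s : ℝ} (hne : ¬ IsRelEq (y s)) :
    ¬ LyapunovStable m (Set.range (y s)) := by
  intro hst
  obtain ⟨c, ⟨K, hK, hcK⟩, hc⟩ := rot_all (by norm_num) hm hA hy hS hS0 hper hne hst
  have hC : ContDiff ℝ 2 (fun p : ℝ × ℝ => y p.1 p.2) := contDiffOn_univ.1 (hA.contDiffOn uniqueDiffOn_univ)
  obtain ⟨hω, hcω, k, hk⟩ := shape_mode hm hC hy
    (hS 0 (Set.mem_univ _)).differentiableAt.hasDerivAt (hS0 0) hc hrot heq hdir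
  rw [hcω, ← Complex.exp_nat_mul, Complex.exp_eq_one_iff] at hcK
  obtain ⟨j, hj⟩ := hcK
  have hjr : (K : ℝ) * (ω * (2 * S 0)) = j * (2 * Real.pi) := by
    have h : (((K : ℝ) * (ω * (2 * S 0)) : ℝ) : ℂ) * I = ((j * (2 * Real.pi) : ℝ) : ℂ) * I := by
      push_cast at hj ⊢
      linear_combination hj
    exact_mod_cast mul_right_cancel₀ Complex.I_ne_zero h
  have hS00 := (hS0 0).ne'
  have hKpos : (K : ℝ) ≠ 0 := by
    have : 0 < K := by omega
    exact_mod_cast this.ne'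
  have hj0 : (j : ℝ) ≠ 0 := by
    intro h
    rw [h, zero_mul] at hjr
    have : (K : ℝ) * (ω * (2 * S 0)) ≠ 0 := by positivity
    exact this hjr
  have hpi := Real.pi_ne_zero
  have hq : Real.pi * k / (S 0 * ω) = (((k : ℚ) * K / j : ℚ) : ℝ) := by
    push_cast
    rw [div_eq_div_iff (mul_ne_zero hS00 hω) hj0]
    linear_combination -(k : ℝ) / 2 * hjr
  rw [hq] at hk
  refine hβ ((k : ℚ) * K / j) ?_
  linear_combination 4 / 27 * hk

end Pool.Agent.U785.LG
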