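import Pool.Agent.U785.LG.E

/-!
# Families of relative periodic solutions through a collinear relative equilibrium
-/

set_option autoImplicit false

namespace Pool.Agent.U785.LG

open Complex ComplexConjugate Pool.Agent.W821.TB

/-- The sum over the pairs of `(m_a + m_b) / |x_a - x_b|^3`. -/
noncomputable def pairSum (m x : Fin 3 → ℝ) : ℝ :=
  (m 1 + m 2) * (|x 2 - x 1| ^ 3)⁻¹ + (m 0 + m 2) * (|x 0 - x 2| ^ 3)⁻¹ +
    (m 0 + m 1) * (|x 1 - x 0| ^ 3)⁻¹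

theorem euler_core {M m0 m1 k0 k1 k2 τ v e E V0 V1 a0 a1 : ℂ} (hEe : E * e = 1)
    (hI : M * k0 - (m0 - v * m1) * (k0 - k2) = τ)
    (hII : M * v * k1 + (m0 - v * m1) * (k1 - k2) = v * τ) :
    E * (-M * (-(k0 / 2) * (V0 + 3 * e ^ 2 * a0) - v * (-(k1 / 2) * (V1 + 3 * e ^ 2 * a1))) +
      (m0 - v * m1) * (-(k0 / 2) * (V0 + 3 * e ^ 2 * a0) + -(k1 / 2) * (V1 + 3 * e ^ 2 * a1) +
        -(k2 / 2) * ((-V0 - V1) + 3 * e ^ 2 * (-a0 - a1)))) =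
      τ / 2 * (E * (V0 - v * V1)) + 3 / 2 * τ * (e * (a0 - v * a1)) := by
  linear_combination (1 / 2 * E * V0 + 3 / 2 * E * e ^ 2 * a0) * hI -
    (1 / 2 * E * V1 + 3 / 2 * E * e ^ 2 * a1) * hII + (3 / 2 * τ * (a0 - v * a1) * e) * hEe

end Pool.Agent.U785.LG
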