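import Pool.Agent.U785.LG.F

set_option autoImplicit false

namespace Pool.Agent.U785.LG

open Complex ComplexConjugate Pool.Agent.W821.TB

theorem euler_mode {m : Fin 3 → ℝ} (hm : ∀ a, 0 < m a) {y : ℝ → ℝ → Ph 3}
    (hC : ContDiff ℝ 2 (fun p : ℝ × ℝ => y p.1 p.2)) (hy : ∀ s, IsSol m Set.univ (y s))
    {S : ℝ → ℝ} {S' : ℝ} (hS : HasDerivAt S S' 0) (hS0 : 0 < S 0) {c : ℂ}
    (hc : ∀ s t, y s (t + 2 * S s) = c • y s t) {ω : ℝ} {x : Fin 3 → ℝ} {u : ℂ} (hu : ‖u‖ = 1)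
    (hrot : ∀ t : ℝ, y 0 t = exp (ω * t * I) • y 0 0)
    (hx : ∀ a, (y 0 0).1 a = u * x a)
    (hdir : ∃ t, deriv (fun s => shape (y s t)) 0 ≠ 0) :
    ω ≠ 0 ∧ c = exp (ω * (2 * S 0 : ℝ) * I) ∧ ∃ k : ℤ,
      (Real.pi * k / (S 0 * ω)) ^ 4 +
        ((pairSum m x / ω ^ 2 - 1) - 2) * (Real.pi * k / (S 0 * ω)) ^ 2 +
        (1 + 2 * (pairSum m x / ω ^ 2 - 1)) * (1 - (pairSum m x / ω ^ 2 - 1)) = 0 := by
  obtain ⟨ξ, η, α, h1, h2, h3, h4, h5⟩ := variation hC hy hS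
  obtain ⟨e, he⟩ : ∃ e : ℝ → ℂ, ∀ t : ℝ, e t = exp (ω * t * I) * u :=
    ⟨fun t => exp (ω * t * I) * u, fun _ => rfl⟩
  have hpos : ∀ t a, (y 0 t).1 a = e t * x a := by
    intro t a
    rw [hrot t, he t]
    change exp (ω * t * I) * (y 0 0).1 a = _
    rw [hx a]; ring
  have hed : ∀ t : ℝ, HasDerivAt e (ω * I * e t) t := by
    intro t
    have h : HasDerivAt (fun t : ℝ => ((ω : ℂ) * (t : ℂ) * I)) ((ω : ℂ) * 1 * I) t :=
      ((Complex.ofRealCLM.hasDerivAt (x := t)).const_mul _).mul_const _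
    have h' := h.cexp.mul_const u
    have e1 : (fun t : ℝ => exp ((ω : ℂ) * (t : ℂ) * I) * u) = e := by
      funext u; exact (he u).symm
    rw [e1] at h'
    refine h'.congr_deriv ?_
    rw [he t]; ring
  have hvel : ∀ t a, (y 0 t).2 a = ω * I * (e t * x a) := by
    intro t a
    have k1 := hasDerivAt_pos (hy 0) t a
    have k2 : HasDerivAt (fun s => (y 0 s).1 a) (ω * I * e t * x a) t := by
      have e1 : (fun s => (y 0 s).1 a) = fun s => e s * x a := by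
        funext s; exact hpos s a
      rw [e1]
      exact (hed t).mul_const _
    rw [k1.unique k2]; ring
  have hac : ∀ t a, acc m (y 0 t).1 a = -(ω : ℂ) ^ 2 * (e t * x a) := by
    intro t a
    have k1 := hasDerivAt_vel (hy 0) t a
    have k2 : HasDerivAt (fun s => (y 0 s).2 a) (ω * I * (ω * I * e t * x a)) t := by
      have e1 : (fun s => (y 0 s).2 a) = fun s => ω * I * (e s * x a) := by
        funext s; exact hvel s a
      rw [e1]
      exact ((hed t).mul_const _).const_mul _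
    rw [k1.unique k2]
    have hI : I * I = -1 := Complex.I_mul_I
    linear_combination (ω : ℂ) ^ 2 * e t * x a * hI
  have hen : ∀ t, ‖e t‖ = 1 := by
    intro t
    rw [he t, norm_mul, hu, mul_one]
    have : (ω : ℂ) * t * I = ((ω * t : ℝ) : ℂ) * I := by push_cast; ring
    rw [this]
    exact Complex.norm_exp_ofReal_mul_I _
  have hece : ∀ t, e t * conj (e t) = 1 := by
    intro t
    rw [Complex.mul_conj, Complex.normSq_eq_norm_sq, hen t]; norm_num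
  have he0 : ∀ t, e t ≠ 0 := fun t h => by have := hen t; rw [h, norm_zero] at this; norm_num at this
  -- the sides at the equilibrium
  have hxx : ∀ a b, a ≠ b → x a - x b ≠ 0 := by
    intro a b hab h
    refine ((hy 0).mem 0).1 a b hab ?_
    rw [hx, hx]
    have : x a = x b := by linarith
    rw [this]
  obtain ⟨κ, hκ⟩ : ∃ κ : Fin 3 → Fin 3 → ℝ, ∀ a b, κ a b = (|x a - x b| ^ 3)⁻¹ := ⟨_, fun _ _ => rfl⟩
  have hκpos : ∀ a b, a ≠ b → 0 < κ a b := by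
    intro a b hab
    rw [hκ]
    have := abs_pos.2 (hxx a b hab)
    positivity
  have hgf : ∀ t a b, gf (e t * x a - e t * x b) = κ a b * (e t * (x a - x b)) := by
    intro t a b
    unfold gf
    rw [← mul_sub, norm_mul, hen, one_mul, ← Complex.ofReal_sub, Complex.norm_real, Real.norm_eq_abs,
      hκ]
  -- central configuration
  have hcc : (m 1 * (κ 1 0 * (x 1 - x 0)) - m 2 * (κ 0 2 * (x 0 - x 2)) = -(ω ^ 2 * x 0)) ∧
      (-(m 0 * (κ 1 0 * (x 1 - x 0))) + m 2 * (κ 2 1 * (x 2 - x 1)) = -(ω ^ 2 * x 1)) ∧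
      (m 0 * (κ 0 2 * (x 0 - x 2)) - m 1 * (κ 2 1 * (x 2 - x 1)) = -(ω ^ 2 * x 2)) := by
    have ha := acc3 m (y 0 0).1
    have b0 := hac 0 0
    have b1 := hac 0 1
    have b2 := hac 0 2
    rw [ha.1, hpos, hpos, hpos, hgf, hgf] at b0
    rw [ha.2.1, hpos, hpos, hpos, hgf, hgf] at b1
    rw [ha.2.2, hpos, hpos, hpos, hgf, hgf] at b2
    refine ⟨?_, ?_, ?_⟩
    · have : e 0 * (((m 1 * (κ 1 0 * (x 1 - x 0)) - m 2 * (κ 0 2 * (x 0 - x 2)) : ℝ)) : ℂ) =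
          e 0 * ((-(ω ^ 2 * x 0) : ℝ) : ℂ) := by
        push_cast
        linear_combination b0
      exact_mod_cast mul_left_cancel₀ (he0 0) this
    · have : e 0 * (((-(m 0 * (κ 1 0 * (x 1 - x 0))) + m 2 * (κ 2 1 * (x 2 - x 1)) : ℝ)) : ℂ) =
          e 0 * ((-(ω ^ 2 * x 1) : ℝ) : ℂ) := by
        push_cast
        linear_combination b1
      exact_mod_cast mul_left_cancel₀ (he0 0) this
    · have : e 0 * (((m 0 * (κ 0 2 * (x 0 - x 2)) - m 1 * (κ 2 1 * (x 2 - x 1)) : ℝ)) : ℂ) =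
          e 0 * ((-(ω ^ 2 * x 2) : ℝ) : ℂ) := by
        push_cast
        linear_combination b2
      exact_mod_cast mul_left_cancel₀ (he0 0) this
  obtain ⟨c0, c1, c2⟩ := hcc
  have hω : ω ≠ 0 := by
    rintro rfl
    have p10 := hκpos 1 0 (by decide)
    have p02 := hκpos 0 2 (by decide)
    have p21 := hκpos 2 1 (by decide)
    have q10 : 0 < (x 1 - x 0) ^ 2 := by have := hxx 1 0 (by decide); positivity
    have q02 : 0 < (x 0 - x 2) ^ 2 := by have := hxx 0 2 (by decide); positivity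
    have q21 : 0 < (x 2 - x 1) ^ 2 := by have := hxx 2 1 (by decide); positivity
    have m0 := hm 0
    have m1 := hm 1
    have m2 := hm 2
    have t1 : 0 < m 0 * m 1 * κ 1 0 * (x 1 - x 0) ^ 2 := by positivity
    have t2 : 0 < m 0 * m 2 * κ 0 2 * (x 0 - x 2) ^ 2 := by positivity
    have t3 : 0 < m 1 * m 2 * κ 2 1 * (x 2 - x 1) ^ 2 := by positivity
    have : m 0 * m 1 * κ 1 0 * (x 1 - x 0) ^ 2 + m 0 * m 2 * κ 0 2 * (x 0 - x 2) ^ 2 +
        m 1 * m 2 * κ 2 1 * (x 2 - x 1) ^ 2 = 0 := by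
      linear_combination (-(m 0 * x 0)) * c0 - m 1 * x 1 * c1 - m 2 * x 2 * c2
    linarith
  -- the two identities
  obtain ⟨v, hv⟩ : ∃ v : ℝ, v * (x 0 - x 2) = x 2 - x 1 :=
    ⟨(x 2 - x 1) / (x 0 - x 2), div_mul_cancel₀ _ (hxx 0 2 (by decide))⟩
  have hw1r := hxx 0 2 (by decide)
  obtain ⟨τ, hτ⟩ : ∃ τ : ℝ, τ = pairSum m x - ω ^ 2 := ⟨_, rfl⟩
  have hps : pairSum m x = (m 1 + m 2) * κ 2 1 + (m 0 + m 2) * κ 0 2 + (m 0 + m 1) * κ 1 0 := by
    rw [hκ, hκ, hκ]; rfl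
  have hIr : (m 0 + m 1 + m 2) * κ 2 1 - (m 0 - v * m 1) * (κ 2 1 - κ 1 0) = τ := by
    refine mul_right_cancel₀ hw1r ?_
    rw [hτ, hps]
    linear_combination (m 1 * (κ 2 1 - κ 1 0)) * hv + c0 - c2
  have hIIr : (m 0 + m 1 + m 2) * v * κ 0 2 + (m 0 - v * m 1) * (κ 0 2 - κ 1 0) = v * τ := by
    refine mul_right_cancel₀ hw1r ?_
    rw [hτ, hps]
    linear_combination ((m 0 + m 1 + m 2) * κ 0 2 - m 1 * (κ 0 2 - κ 1 0) - ((m 1 + m 2) * κ 2 1 +
      (m 0 + m 2) * κ 0 2 + (m 0 + m 1) * κ 1 0 - ω ^ 2)) * hv + c2 - c1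
  -- the rotation of the family
  have hw1 : ((x 0 : ℂ) - x 2) ≠ 0 := by
    have : (((x 0 - x 2 : ℝ)) : ℂ) ≠ 0 := by exact_mod_cast hw1r
    rwa [Complex.ofReal_sub] at this
  have hee : ∀ t, e (t + 2 * S 0) = exp (ω * (2 * S 0 : ℝ) * I) * e t := by
    intro t
    rw [he, he, ← mul_assoc, ← Complex.exp_add]
    congr 2
    push_cast; ring
  have hcexp : c = exp (ω * (2 * S 0 : ℝ) * I) := by
    have k := hc 0 0
    have k1 := congrArg (fun z : Ph 3 => z.1 0 - z.1 2) k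
    simp only [Prod.smul_fst, Pi.smul_apply, smul_eq_mul] at k1
    rw [hpos, hpos, hpos, hpos, hee] at k1
    have : exp (ω * (2 * S 0 : ℝ) * I) * (e 0 * (x 0 - x 2)) = c * (e 0 * (x 0 - x 2)) := by
      linear_combination k1
    exact (mul_right_cancel₀ (mul_ne_zero (he0 0) hw1) this).symm
  -- the variation of the sides
  have side : ∀ t a b, HasDerivAt (fun s => (y s t).1 a - (y s t).1 b) (ξ t a - ξ t b) 0 :=
    fun t a b => (h1 t a).sub (h1 t b)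
  obtain ⟨G, hG⟩ : ∃ G : ℝ → Fin 3 → Fin 3 → ℂ, ∀ t a b, G t a b =
      -((κ a b : ℂ) / 2) * ((ξ t a - ξ t b) + 3 * (e t) ^ 2 * conj (ξ t a - ξ t b)) :=
    ⟨_, fun _ _ _ => rfl⟩
  have hgd : ∀ t a b, a ≠ b → HasDerivAt (fun s => gf ((y s t).1 a - (y s t).1 b)) (G t a b) 0 := by
    intro t a b hab
    have hn : ‖(y 0 t).1 a - (y 0 t).1 b‖ = |x a - x b| := by
      rw [hpos, hpos, ← mul_sub, norm_mul, hen, one_mul, ← Complex.ofReal_sub, Complex.norm_real,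
        Real.norm_eq_abs]
    have hap : 0 < |x a - x b| := abs_pos.2 (hxx a b hab)
    have k := hasDerivAt_gf (side t a b) hap hn
    refine k.congr_deriv ?_
    rw [hG, hpos, hpos, ← mul_sub, hκ]
    have hsq : ((|x a - x b| : ℝ) : ℂ) ^ 2 = ((x a : ℂ) - x b) ^ 2 := by
      have : |x a - x b| ^ 2 = (x a - x b) ^ 2 := sq_abs _
      exact_mod_cast congrArg (fun r : ℝ => (r : ℂ)) this
    have hne : ((|x a - x b| : ℝ) : ℂ) ≠ 0 := by exact_mod_cast hap.ne'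
    have hne2 : ((x a : ℂ) - x b) ^ 2 ≠ 0 := by rw [← hsq]; exact pow_ne_zero 2 hne
    rw [hsq, mul_pow]
    push_cast
    have e1 : 3 * (e t ^ 2 * ((x a : ℂ) - x b) ^ 2) * conj (ξ t a - ξ t b) / ((x a : ℂ) - x b) ^ 2 =
        3 * e t ^ 2 * conj (ξ t a - ξ t b) := by
      rw [div_eq_iff hne2]; ring
    rw [e1]
    field_simp
  have hα0 : ∀ t, α t 0 = m 1 * G t 1 0 - m 2 * G t 0 2 := by
    intro t
    have k : HasDerivAt (fun s => acc m (y s t).1 0) (m 1 * G t 1 0 - m 2 * G t 0 2) 0 := by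
      have e1 : (fun s => acc m (y s t).1 0) = fun s => (m 1 : ℂ) * gf ((y s t).1 1 - (y s t).1 0) -
          m 2 * gf ((y s t).1 0 - (y s t).1 2) := by
        funext s; exact (acc3 m _).1
      rw [e1]
      exact ((hgd t 1 0 (by decide)).const_mul _).sub ((hgd t 0 2 (by decide)).const_mul _)
    exact (h2 t 0).unique k
  have hα1 : ∀ t, α t 1 = -(m 0 * G t 1 0) + m 2 * G t 2 1 := by
    intro t
    have k : HasDerivAt (fun s => acc m (y s t).1 1) (-(m 0 * G t 1 0) + m 2 * G t 2 1) 0 := by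
      have e1 : (fun s => acc m (y s t).1 1) = fun s =>
          -((m 0 : ℂ) * gf ((y s t).1 1 - (y s t).1 0)) +
          m 2 * gf ((y s t).1 2 - (y s t).1 1) := by
        funext s; exact (acc3 m _).2.1
      rw [e1]
      exact ((hgd t 1 0 (by decide)).const_mul _).neg.add ((hgd t 2 1 (by decide)).const_mul _)
    exact (h2 t 1).unique k
  have hα2 : ∀ t, α t 2 = m 0 * G t 0 2 - m 1 * G t 2 1 := by
    intro t
    have k : HasDerivAt (fun s => acc m (y s t).1 2) (m 0 * G t 0 2 - m 1 * G t 2 1) 0 := by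
      have e1 : (fun s => acc m (y s t).1 2) = fun s => (m 0 : ℂ) * gf ((y s t).1 0 - (y s t).1 2) -
          m 1 * gf ((y s t).1 2 - (y s t).1 1) := by
        funext s; exact (acc3 m _).2.2
      rw [e1]
      exact ((hgd t 0 2 (by decide)).const_mul _).sub ((hgd t 2 1 (by decide)).const_mul _)
    exact (h2 t 2).unique k
  -- the function `D`
  obtain ⟨w₁, hw₁⟩ : ∃ w₁ : ℂ, w₁ = (x 0 : ℂ) - x 2 := ⟨_, rfl⟩
  rw [← hw₁] at hw1
  have hw1c : conj w₁ = w₁ := by rw [hw₁, map_sub, Complex.conj_ofReal, Complex.conj_ofReal]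
  have hvw : (v : ℂ) * w₁ = (x 2 : ℂ) - x 1 := by
    rw [hw₁]
    exact_mod_cast congrArg (fun r : ℝ => (r : ℂ)) hv
  obtain ⟨E, hE⟩ : ∃ E : ℝ → ℂ, ∀ t, E t = conj (e t) := ⟨_, fun _ => rfl⟩
  have hEe : ∀ t, E t * e t = 1 := fun t => by rw [hE, mul_comm]; exact hece t
  have hEc : ∀ t, conj (E t) = e t := fun t => by rw [hE, Complex.conj_conj]
  have hEd : ∀ t, HasDerivAt E (-(ω * I) * E t) t := by
    intro t
    have k : HasDerivAt (fun t => conj (e t)) (conj (ω * I * e t)) t := (hed t).star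
    have e1 : (fun t => conj (e t)) = E := by funext u; exact (hE u).symm
    rw [e1] at k
    refine k.congr_deriv ?_
    rw [hE, map_mul, map_mul, Complex.conj_ofReal, Complex.conj_I]; ring
  set D : ℝ → ℂ := fun t => E t * ((ξ t 2 - ξ t 1) - v * (ξ t 0 - ξ t 2)) / w₁ with hD
  set D1 : ℝ → ℂ := fun t => (E t * ((η t 2 - η t 1) - v * (η t 0 - η t 2)) -
    ω * I * (E t * ((ξ t 2 - ξ t 1) - v * (ξ t 0 - ξ t 2)))) / w₁ with hD1
  set D2 : ℝ → ℂ := fun t => (E t * ((α t 2 - α t 1) - v * (α t 0 - α t 2)) -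
    2 * (ω * I) * (E t * ((η t 2 - η t 1) - v * (η t 0 - η t 2))) -
    ω ^ 2 * (E t * ((ξ t 2 - ξ t 1) - v * (ξ t 0 - ξ t 2)))) / w₁ with hD2
  have hX : ∀ t, HasDerivAt (fun t => (ξ t 2 - ξ t 1) - v * (ξ t 0 - ξ t 2))
      ((η t 2 - η t 1) - v * (η t 0 - η t 2)) t := fun t =>
    ((h3 t 2).sub (h3 t 1)).sub (((h3 t 0).sub (h3 t 2)).const_mul (v : ℂ))
  have hZ : ∀ t, HasDerivAt (fun t => (η t 2 - η t 1) - v * (η t 0 - η t 2))
      ((α t 2 - α t 1) - v * (α t 0 - α t 2)) t := fun t =>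
    ((h4 t 2).sub (h4 t 1)).sub (((h4 t 0).sub (h4 t 2)).const_mul (v : ℂ))
  have hI : I * I = -1 := Complex.I_mul_I
  have hdD : ∀ t, HasDerivAt D (D1 t) t := by
    intro t
    have k := ((hEd t).mul (hX t)).div_const w₁
    refine HasDerivAt.congr_deriv k ?_
    rw [hD1]
    simp only
    congr 1
    ring
  have hdD1 : ∀ t, HasDerivAt D1 (D2 t) t := by
    intro t
    have k := (((hEd t).mul (hZ t)).sub (((hEd t).mul (hX t)).const_mul (ω * I))).div_const w₁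
    refine HasDerivAt.congr_deriv k ?_
    rw [hD2]
    simp only
    congr 1
    linear_combination (ω : ℂ) ^ 2 * E t * ((ξ t 2 - ξ t 1) - v * (ξ t 0 - ξ t 2)) * hI
  have hode : ∀ t, D2 t + 2 * I * ω * D1 t = ((ω ^ 2 + τ / 2 : ℝ) : ℂ) * D t +
      ((3 / 2 * τ : ℝ) : ℂ) * conj (D t) := by
    intro t
    have k := euler_core (M := (m 0 : ℂ) + m 1 + m 2) (m0 := m 0) (m1 := m 1) (k0 := κ 2 1)
      (k1 := κ 0 2) (k2 := κ 1 0) (τ := τ) (v := v) (V0 := ξ t 2 - ξ t 1) (V1 := ξ t 0 - ξ t 2)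
      (a0 := conj (ξ t 2 - ξ t 1)) (a1 := conj (ξ t 0 - ξ t 2)) (hEe t)
      (by exact_mod_cast congrArg (fun r : ℝ => (r : ℂ)) hIr)
      (by exact_mod_cast congrArg (fun r : ℝ => (r : ℂ)) hIIr)
    have hcD : conj (D t) = e t * (conj (ξ t 2 - ξ t 1) - v * conj (ξ t 0 - ξ t 2)) / w₁ := by
      rw [hD]
      simp only [map_div₀, map_mul, map_sub, hw1c, hEc, Complex.conj_ofReal]
    rw [hcD, hD, hD1, hD2]
    simp only
    rw [hα0, hα1, hα2, hG, hG, hG]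
    have e1 : ξ t 1 - ξ t 0 = -(ξ t 2 - ξ t 1) - (ξ t 0 - ξ t 2) := by ring
    rw [e1]
    simp only [map_sub, map_neg] at k ⊢
    rw [← mul_div_assoc, ← mul_div_assoc, ← mul_div_assoc, ← add_div, ← add_div]
    congr 1
    push_cast
    linear_combination k -
      (2 : ℂ) * ω ^ 2 * (E t * (ξ t 2 - ξ t 1 - v * (ξ t 0 - ξ t 2))) * hI
  have hperD : ∀ t, D (t + 2 * S 0) = D t := by
    intro t
    have kk : ∀ a, ξ (t + 2 * S 0) a + 2 * S' * (ω * I * (e (t + 2 * S 0) * x a)) = c * ξ t a := by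
      intro a
      have k1 := h5 t a
      rw [hvel] at k1
      have k2 : HasDerivAt (fun s => (y s (t + 2 * S s)).1 a) (c * ξ t a) 0 := by
        have e1 : (fun s => (y s (t + 2 * S s)).1 a) = fun s => c * (y s t).1 a := by
          funext s; rw [hc s t]; rfl
        rw [e1]
        exact (h1 t a).const_mul c
      exact k1.unique k2
    have hadd : E (t + 2 * S 0) * c = E t := by
      have e1 := hEe (t + 2 * S 0)
      rw [hee, ← hcexp] at e1
      have e2 := hEe t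
      refine mul_right_cancel₀ (he0 t) ?_
      rw [e2, ← e1]; ring
    have hXc : (ξ (t + 2 * S 0) 2 - ξ (t + 2 * S 0) 1) - v * (ξ (t + 2 * S 0) 0 - ξ (t + 2 * S 0) 2)
        = c * ((ξ t 2 - ξ t 1) - v * (ξ t 0 - ξ t 2)) := by
      have k2 := kk 2
      have k1 := kk 1
      have k0 := kk 0
      linear_combination k2 - k1 - v * (k0 - k2) +
        (2 * S' * (ω * I * e (t + 2 * S 0))) * hvw -
        (2 * S' * (ω * I * e (t + 2 * S 0))) * v * hw₁
    rw [hD]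
    simp only
    rw [hXc, ← mul_assoc, hadd]
  have hneD : ∃ t, D t ≠ 0 := by
    obtain ⟨t, ht⟩ := hdir
    refine ⟨t, fun h0 => ht ?_⟩
    have hne : (y 0 t).1 0 - (y 0 t).1 2 ≠ 0 := by
      rw [hpos, hpos, ← mul_sub, ← hw₁]
      exact mul_ne_zero (he0 t) hw1
    have k := (side t 2 1).div (side t 0 2) hne
    have k' := HasDerivAt.deriv k
    have e1 : deriv (fun s => shape (y s t)) 0 = deriv ((fun s => (y s t).1 2 - (y s t).1 1) /
      (fun s => (y s t).1 0 - (y s t).1 2)) 0 := rfl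
    rw [e1, k', hpos, hpos, hpos, ← mul_sub, ← mul_sub, ← hvw, ← hw₁]
    have hX0 : (ξ t 2 - ξ t 1) - v * (ξ t 0 - ξ t 2) = 0 := by
      rw [hD] at h0
      simp only at h0
      rcases div_eq_zero_iff.1 h0 with h | h
      · rcases mul_eq_zero.1 h with h | h
        · have := hEe t
          rw [h, zero_mul] at this
          exact absurd this (by norm_num)
        · exact h
      · exact absurd h hw1
    rw [div_eq_zero_iff]
    left
    linear_combination e t * w₁ * hX0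
  obtain ⟨k, hk⟩ := mode (P := 2 * S 0) (w := ω) (a := ω ^ 2 + τ / 2)
    (b := ((3 / 2 * τ : ℝ) : ℂ)) (by positivity) hdD hdD1 hperD hode hneD
  refine ⟨hω, hcexp, k, ?_⟩
  rw [Complex.norm_real, Real.norm_eq_abs, sq_abs] at hk
  have hS0' : S 0 ≠ 0 := hS0.ne'
  obtain ⟨q, hq⟩ : ∃ q : ℝ, q = Real.pi * k / (S 0 * ω) := ⟨_, rfl⟩
  have hqX : 2 * Real.pi * k / (2 * S 0) = q * ω := by
    rw [hq]; field_simp
  rw [hqX] at hk
  rw [← hq]
  have hω4 : ω ^ 4 ≠ 0 := pow_ne_zero 4 hω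
  have hω2 : ω ^ 2 ≠ 0 := pow_ne_zero 2 hω
  obtain ⟨κ', hκ'⟩ : ∃ κ' : ℝ, κ' = pairSum m x / ω ^ 2 - 1 := ⟨_, rfl⟩
  have hτκ : τ = κ' * ω ^ 2 := by
    rw [hτ, hκ']; field_simp
  rw [← hκ']
  rw [hτκ] at hk
  have hfin : ω ^ 4 * (q ^ 4 + (κ' - 2) * q ^ 2 + (1 + 2 * κ') * (1 - κ')) = 0 := by
    linear_combination hk
  exact (mul_eq_zero.1 hfin).resolve_left hω4

/-- No member of a family through a collinear relative equilibrium is stable. -/
theorem euler {m : Fin 3 → ℝ} (hm : ∀ a, 0 < m a)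
    {y : ℝ → ℝ → Ph 3} (hA : AnalyticOnNhd ℝ (fun p : ℝ × ℝ => y p.1 p.2) Set.univ)
    (hy : ∀ s, IsSol m Set.univ (y s)) {S : ℝ → ℝ} (hS : AnalyticOnNhd ℝ S Set.univ)
    (hS0 : ∀ s, 0 < S s) (hper : ∀ s, DistPer (y s) (S s)) {ω : ℝ} {x : Fin 3 → ℝ} {u : ℂ}
    (hu : ‖u‖ = 1) (hrot : ∀ t : ℝ, y 0 t = exp (ω * t * I) • y 0 0)
    (hx : ∀ a, (y 0 0).1 a = u * x a)
    (hκ : ∀ q : ℚ, (q : ℝ) ^ 4 + ((pairSum m x / ω ^ 2 - 1) - 2) * (q : ℝ) ^ 2 +
        (1 + 2 * (pairSum m x / ω ^ 2 - 1)) * (1 - (pairSum m x / ω ^ 2 - 1)) ≠ 0)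
    (hdir : ∃ t, deriv (fun s => shape (y s t)) 0 ≠ 0) {s : ℝ} (hne : ¬ IsRelEq (y s)) :
    ¬ LyapunovStable m (Set.range (y s)) := by
  intro hst
  obtain ⟨c, ⟨K, hK, hcK⟩, hc⟩ := rot_all (by norm_num) hm hA hy hS hS0 hper hne hst
  have hC : ContDiff ℝ 2 (fun p : ℝ × ℝ => y p.1 p.2) :=
    contDiffOn_univ.1 (hA.contDiffOn uniqueDiffOn_univ)
  obtain ⟨hω, hcω, k, hk⟩ := euler_mode hm hC hy
    (hS 0 (Set.mem_univ _)).differentiableAt.hasDerivAt (hS0 0) hc hu hrot hx hdir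
  rw [hcω, ← Complex.exp_nat_mul, Complex.exp_eq_one_iff] at hcK
  obtain ⟨j, hj⟩ := hcK
  have hjr : (K : ℝ) * (ω * (2 * S 0)) = j * (2 * Real.pi) := by
    have h : (((K : ℝ) * (ω * (2 * S 0)) : ℝ) : ℂ) * I = ((j * (2 * Real.pi) : ℝ) : ℂ) * I := by
      push_cast at hj ⊢
      linear_combination hj
    exact_mod_cast mul_right_cancel₀ Complex.I_ne_zero h
  have hS00 := (hS0 0).ne'
  have hKpos : (K : ℝ) ≠ 0 := by
    have : 0 < K := by omega
    exact_mod_cast this.ne'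
  have hj0 : (j : ℝ) ≠ 0 := by
    intro h
    rw [h, zero_mul] at hjr
    have : (K : ℝ) * (ω * (2 * S 0)) ≠ 0 := by positivity
    exact this hjr
  have hq : Real.pi * k / (S 0 * ω) = (((k : ℚ) * K / j : ℚ) : ℝ) := by
    push_cast
    rw [div_eq_div_iff (mul_ne_zero hS00 hω) hj0]
    linear_combination -(k : ℝ) / 2 * hjr
  rw [hq] at hk
  exact hκ ((k : ℚ) * K / j) hk

end Pool.Agent.U785.LG
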